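import Pool.Agent.Lib.MP_33650d_pr.Y.Own
import Pool.Agent.Lib.MP_33650d_pr.G.Mid
import Pool.Agent.Lib.MP_33650d_pr.G.RootI
import Pool.Agent.Lib.MP_33650d_pr.G.RootK

open MeasureTheory ProbabilityTheory

namespace Pool.Agent.Results.MP_33650d_pr.ExactConstant

universe u

/-- The supremum of the normalised error `|Φ_n x - Φ x| / λ` over all `n ≥ 1`, all independent
centred summands with positive variances and finite third absolute moments, and all real `x`,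
is the constant of Esseen. -/
theorem result :
    IsLUB {r : ℝ | ∃ (n : ℕ) (Ω : Type u) (_ : MeasurableSpace Ω) (P : Measure Ω)
        (X : Fin n → Ω → ℝ) (x : ℝ),
        1 ≤ n ∧ IsProbabilityMeasure P ∧ (∀ k, AEMeasurable (X k) P) ∧ iIndepFun X P ∧
        (∀ k, Integrable (fun ω => |X k ω| ^ 3) P) ∧ (∀ k, ∫ ω, X k ω ∂P = 0) ∧
        (∀ k, 0 < ∫ ω, X k ω ^ 2 ∂P) ∧
        r = |P.real {ω | (∑ k, X k ω) / Real.sqrt (∑ k, ∫ ω, X k ω ^ 2 ∂P) ≤ x}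
              - ∫ t in Set.Iic x, Real.exp (-t ^ 2 / 2) / Real.sqrt (2 * Real.pi)|
            / ((∑ k, ∫ ω, |X k ω| ^ 3 ∂P) / Real.sqrt (∑ k, ∫ ω, X k ω ^ 2 ∂P) ^ 3)}
      ((3 + Real.sqrt 10) / (6 * Real.sqrt (2 * Real.pi))) :=
  Pool.Agent.Lib.MP_33650d_pr.Y.own_lub (Pool.Agent.Lib.MP_33650d_pr.Y.final_of_mid
    (Pool.Agent.Lib.MP_33650d_pr.X.mid_of_roots Pool.Agent.Lib.MP_33650d_pr.X.rootI
      Pool.Agent.Lib.MP_33650d_pr.X.rootK))

end Pool.Agent.Results.MP_33650d_pr.ExactConstant
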